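import Pool.Agent.H414R3.OSLow

/-!
# MP_2c43e6_an: the one-supremum mixed bound for the maximal operator fails

For `n = 1`, `p = 2` we construct weights `w_k ∈ A_2` on `ℝ` with
`‖M‖_{L²(w_k)} / [σ_k]_{(A_2)^{1/2}(A_∞)^{1/2}} → ∞`, and the quotient is even bounded below by a
constant times `Φ([σ_k]_{A_2})^{1/2}`, so the known logarithmic factor is needed and cannot be
improved for `p = 2`.
-/

open MeasureTheory Set Filter Topology
open scoped ENNReal NNReal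

namespace Pool.Agent.Results.MP_2c43e6_an.LogFactor

open Pool.Agent.H414R3.OS

/-- A weight: a nonnegative locally integrable function. -/
def IsWeight (w : ℝ → ℝ) : Prop := (∀ x, 0 ≤ w x) ∧ LocallyIntegrable w volume

/-- A nonnegative real function regarded as an extended nonnegative function. -/
noncomputable def toE (v : ℝ → ℝ) : ℝ → ℝ≥0∞ := fun x => ENNReal.ofReal (v x)

/-- The conjugate exponent `p' = p / (p - 1)`. -/
noncomputable def conjExp (p : ℝ) : ℝ := p / (p - 1)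

/-- The dual weight `σ = w^{1 - p'}`. -/
noncomputable def dualWeight (p : ℝ) (w : ℝ → ℝ) : ℝ → ℝ := fun x => w x ^ (1 - conjExp p)

/-- `A_q(v, Q) = ⟨v⟩_Q ⟨v^{-1/(q-1)}⟩_Q^{q-1}`. -/
noncomputable def Aq (q : ℝ) (v : ℝ → ℝ) (Q : Set ℝ) : ℝ≥0∞ :=
  avg (toE v) Q * avg (toE fun x => v x ^ (-1 / (q - 1))) Q ^ (q - 1)

/-- `A_∞(v, Q) = v(Q)⁻¹ ∫_Q M(v χ_Q)`. -/
noncomputable def Ainf (v : ℝ → ℝ) (Q : Set ℝ) : ℝ≥0∞ :=
  (∫⁻ x in Q, toE v x)⁻¹ * ∫⁻ x in Q, maxFn (Q.indicator (toE v)) x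

/-- `[v]_{A_q} = sup_Q A_q(v, Q)`. -/
noncomputable def AqConst (q : ℝ) (v : ℝ → ℝ) : ℝ≥0∞ := ⨆ (Q : Set ℝ) (_ : IsCube Q), Aq q v Q

/-- `[v]_{(A_q)^α (A_∞)^β} = sup_Q A_q(v, Q)^α A_∞(v, Q)^β`. -/
noncomputable def oneSup (q α β : ℝ) (v : ℝ → ℝ) : ℝ≥0∞ :=
  ⨆ (Q : Set ℝ) (_ : IsCube Q), Aq q v Q ^ α * Ainf v Q ^ β

/-- The norm `‖f‖_{L^p(w)} = (∫ f^p w)^{1/p}` of `f ≥ 0`. -/
noncomputable def lpNorm (p : ℝ) (w : ℝ → ℝ) (f : ℝ → ℝ≥0∞) : ℝ≥0∞ :=
  (∫⁻ x, f x ^ p * toE w x) ^ (1 / p)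

/-- `‖M‖_{L^p(w)}`: the supremum of `‖Mf‖_{L^p(w)}` over measurable `f` with `‖f‖_{L^p(w)} = 1`. -/
noncomputable def opNormM (p : ℝ) (w : ℝ → ℝ) : ℝ≥0∞ :=
  ⨆ (f : ℝ → ℝ) (_ : Measurable f) (_ : lpNorm p w (fun x => ‖f x‖ₑ) = 1),
    lpNorm p w (maxFn fun x => ‖f x‖ₑ)

/-- The constant of the question, `[σ]_{(A_{p'})^{1/p'} (A_∞)^{1/p}}` with `σ = w^{1-p'}`. -/
noncomputable def mixedConst (p : ℝ) (w : ℝ → ℝ) : ℝ≥0∞ :=
  oneSup (conjExp p) (1 / conjExp p) (1 / p) (dualWeight p w)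

/-- the counterexample weight -/
noncomputable def W (L : ℝ) : ℝ → ℝ := fun x => prof L |x|

lemma conj_two : conjExp 2 = 2 := by unfold conjExp; norm_num

lemma toE_W (L : ℝ) : toE (W L) = wg L := rfl

lemma dual_W {L : ℝ} : dualWeight 2 (W L) = fun x => (prof L |x|)⁻¹ := by
  funext x
  unfold dualWeight W
  rw [conj_two, show (1 - 2 : ℝ) = -1 by norm_num, Real.rpow_neg_one]

lemma toE_dual (L : ℝ) : toE (dualWeight 2 (W L)) = sg L := by
  rw [dual_W]; rfl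

lemma toE_dual_inv (L : ℝ) : toE (fun x => dualWeight 2 (W L) x ^ (-1 / ((2 : ℝ) - 1))) = wg L := by
  rw [dual_W]
  funext x
  unfold toE wg
  congr 1
  rw [show (-1 / ((2 : ℝ) - 1)) = -1 by norm_num]
  exact (Real.rpow_neg_one _).trans (inv_inv _)

lemma toE_W_inv (L : ℝ) : toE (fun x => W L x ^ (-1 / ((2 : ℝ) - 1))) = sg L := by
  funext x
  unfold toE sg W
  congr 1
  rw [show (-1 / ((2 : ℝ) - 1)) = -1 by norm_num]
  exact Real.rpow_neg_one _

lemma Aq_dual (L : ℝ) (Q : Set ℝ) :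
    Aq 2 (dualWeight 2 (W L)) Q = avg (sg L) Q * avg (wg L) Q := by
  unfold Aq
  rw [toE_dual, toE_dual_inv, show ((2 : ℝ) - 1) = 1 by norm_num, ENNReal.rpow_one]

lemma Aq_W (L : ℝ) (Q : Set ℝ) :
    Aq 2 (W L) Q = avg (wg L) Q * avg (sg L) Q := by
  unfold Aq
  rw [toE_W, toE_W_inv, show ((2 : ℝ) - 1) = 1 by norm_num, ENNReal.rpow_one]

lemma A2_le {L : ℝ} (hL : 1 ≤ L) {Q : Set ℝ} (hQ : IsCube Q) :
    avg (wg L) Q * avg (sg L) Q ≤ ENNReal.ofReal (40 * (1 + L) ^ 2) := by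
  obtain ⟨a, b, hab, rfl⟩ := hQ
  apply prod_bound hL hab (fun x => sg_le_core hL) sg_le_Bf
  intro ρ hρ x hx
  unfold sg
  exact ENNReal.ofReal_le_ofReal (inv_anti₀ (prof_pos hL) (prof_mono hL (hρ x hx)))

lemma AqConst_W_le {L : ℝ} (hL : 1 ≤ L) :
    AqConst 2 (W L) ≤ ENNReal.ofReal (40 * (1 + L) ^ 2) := by
  refine iSup_le fun Q => iSup_le fun hQ => ?_
  rw [Aq_W]
  exact A2_le hL hQ

lemma AqConst_dual_le {L : ℝ} (hL : 1 ≤ L) :
    AqConst 2 (dualWeight 2 (W L)) ≤ ENNReal.ofReal (40 * (1 + L) ^ 2) := by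
  refine iSup_le fun Q => iSup_le fun hQ => ?_
  rw [Aq_dual, mul_comm]
  exact A2_le hL hQ

lemma AqConst_dual_ge {L : ℝ} (hL : 1 ≤ L) :
    ENNReal.ofReal ((1 + L) ^ 2 / 8) ≤ AqConst 2 (dualWeight 2 (W L)) := by
  refine (A2_low hL).trans ?_
  rw [← Aq_dual]
  have e1 := Real.exp_pos (-L)
  exact le_iSup_of_le _ (le_iSup_of_le ⟨_, _, by linarith, rfl⟩ le_rfl)

lemma int_sg_pos {L a b : ℝ} (hL : 1 ≤ L) (hab : a < b) : 0 < ∫⁻ x in Icc a b, sg L x := by
  calc (0 : ℝ≥0∞) < ENNReal.ofReal ((1 + L)⁻¹) * volume (Icc a b) := by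
        rw [Real.volume_Icc]
        apply ENNReal.mul_pos
        · simp; linarith
        · simp [hab]
    _ = ∫⁻ _ in Icc a b, ENNReal.ofReal ((1 + L)⁻¹) := (setLIntegral_const _ _).symm
    _ ≤ ∫⁻ x in Icc a b, sg L x := by
        apply lintegral_mono
        intro x
        unfold sg
        exact ENNReal.ofReal_le_ofReal (inv_anti₀ (prof_pos hL) (prof_le hL))

lemma int_sg_lt {L a b : ℝ} (hL : 1 ≤ L) : ∫⁻ x in Icc a b, sg L x < ⊤ := by
  calc ∫⁻ x in Icc a b, sg L x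
      ≤ ∫⁻ _ in Icc a b, ENNReal.ofReal ((2 * Real.exp (-L))⁻¹) :=
        lintegral_mono fun x => sg_le_core hL
    _ < ⊤ := by
        rw [setLIntegral_const, Real.volume_Icc]
        exact ENNReal.mul_lt_top ENNReal.ofReal_lt_top ENNReal.ofReal_lt_top

/-- the identity `A_2(σ,Q) A_∞(σ,Q) = ⟨w⟩_Q ⟨M(σ χ_Q)⟩_Q` -/
lemma prod_eq {L a b : ℝ} (hL : 1 ≤ L) (hab : a < b) :
    Aq 2 (dualWeight 2 (W L)) (Icc a b) * Ainf (dualWeight 2 (W L)) (Icc a b) =
      avg (wg L) (Icc a b) * avg (maxFn ((Icc a b).indicator (sg L))) (Icc a b) := by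
  rw [Aq_dual]
  unfold Ainf
  rw [toE_dual]
  set S := ∫⁻ x in Icc a b, sg L x with hS
  have h0 : S ≠ 0 := (int_sg_pos hL hab).ne'
  have ht : S ≠ ⊤ := (int_sg_lt hL).ne
  have e : avg (sg L) (Icc a b) = (volume (Icc a b))⁻¹ * S := rfl
  rw [e]
  unfold avg
  set T := ∫⁻ x in Icc a b, maxFn ((Icc a b).indicator (sg L)) x
  set V := (volume (Icc a b))⁻¹
  set U := ∫⁻ x in Icc a b, wg L x
  calc V * S * (V * U) * (S⁻¹ * T) = (S * S⁻¹) * (V * U * (V * T)) := by ring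
    _ = V * U * (V * T) := by rw [ENNReal.mul_inv_cancel h0 ht, one_mul]

lemma prod_le {L a b : ℝ} (hL : 1 ≤ L) (hab : a < b) :
    Aq 2 (dualWeight 2 (W L)) (Icc a b) * Ainf (dualWeight 2 (W L)) (Icc a b) ≤
      ENNReal.ofReal (40 * (1 + L) ^ 2) := by
  rw [prod_eq hL hab]
  apply prod_bound hL hab (maxFn_le_core hL _) (maxFn_le_Bf hL _)
  intro ρ hρ x _
  exact maxFn_le_far hL _ hρ x

lemma mixed_le {L : ℝ} (hL : 1 ≤ L) :
    mixedConst 2 (W L) ≤ ENNReal.ofReal (40 * (1 + L) ^ 2) ^ (1 / 2 : ℝ) := by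
  unfold mixedConst oneSup
  refine iSup_le fun Q => iSup_le fun hQ => ?_
  obtain ⟨a, b, hab, rfl⟩ := hQ
  rw [conj_two, ← ENNReal.mul_rpow_of_nonneg _ _ (by norm_num)]
  exact ENNReal.rpow_le_rpow (prod_le hL hab) (by norm_num)

lemma mixed_pos {L : ℝ} (hL : 1 ≤ L) : 0 < mixedConst 2 (W L) := by
  unfold mixedConst oneSup
  have hab : (0 : ℝ) < 1 := one_pos
  refine lt_of_lt_of_le ?_ (le_iSup_of_le (Icc 0 1) (le_iSup_of_le ⟨0, 1, hab, rfl⟩ le_rfl))
  rw [conj_two, ← ENNReal.mul_rpow_of_nonneg _ _ (by norm_num), prod_eq hL hab]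
  apply ENNReal.rpow_pos_of_nonneg _ (by norm_num)
  have hv : volume (Icc (0 : ℝ) 1) = 1 := by rw [Real.volume_Icc]; simp
  unfold avg
  rw [hv, inv_one, one_mul, one_mul]
  apply ENNReal.mul_pos
  · apply ne_of_gt
    calc (0 : ℝ≥0∞) < ∫⁻ _ in Icc (0 : ℝ) 1, ENNReal.ofReal (2 * Real.exp (-L)) := by
          rw [setLIntegral_const, hv, mul_one]
          simp [Real.exp_pos]
      _ ≤ ∫⁻ x in Icc 0 1, wg L x := by
          apply lintegral_mono
          intro x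
          unfold wg
          exact ENNReal.ofReal_le_ofReal (prof_ge hL)
  · apply ne_of_gt
    calc (0 : ℝ≥0∞) < ∫⁻ x in Icc (0 : ℝ) 1, sg L x := int_sg_pos hL hab
      _ = ∫⁻ _ in Icc (0 : ℝ) 1, (∫⁻ x in Icc (0 : ℝ) 1, sg L x) := by
          rw [setLIntegral_const, hv, mul_one]
      _ ≤ ∫⁻ x in Icc 0 1, maxFn ((Icc 0 1).indicator (sg L)) x := by
          apply setLIntegral_mono' measurableSet_Icc
          intro x hx
          unfold maxFn
          refine le_iSup_of_le (Icc 0 1) (le_iSup_of_le ⟨0, 1, hab, rfl⟩ (le_iSup_of_le hx ?_))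
          unfold avg
          rw [hv, inv_one, one_mul]
          apply le_of_eq
          apply setLIntegral_congr_fun measurableSet_Icc
          intro y hy
          exact (indicator_of_mem hy _).symm

lemma op_ge {L : ℝ} (hL : 1 ≤ L) :
    ENNReal.ofReal ((1 + L) ^ 2 / 4 * Real.log (1 + L)) ^ (1 / 2 : ℝ) ≤ opNormM 2 (W L) := by
  unfold opNormM
  have h1 : lpNorm 2 (W L) (fun x => ‖tf L x‖ₑ) = 1 := by
    unfold lpNorm
    rw [toE_W, tf_norm, ENNReal.one_rpow]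
  refine le_trans ?_ (le_iSup_of_le (tf L) (le_iSup_of_le (measurable_tf L)
    (le_iSup_of_le h1 le_rfl)))
  unfold lpNorm
  rw [toE_W]
  exact ENNReal.rpow_le_rpow (maxFn_norm hL) (by norm_num)

lemma W_weight {L : ℝ} (hL : 1 ≤ L) : IsWeight (W L) := by
  refine ⟨fun x => (prof_pos hL).le, ?_⟩
  have hm : Measurable (W L) := (measurable_prof L).comp measurable_norm
  have hb : ∀ x, ‖W L x‖ ≤ 1 + L := fun x => by
    unfold W
    rw [Real.norm_of_nonneg (prof_pos hL).le]; exact prof_le hL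
  exact (locallyIntegrable_const (1 + L)).mono hm.aestronglyMeasurable
    (Eventually.of_forall fun x => by
      rw [Real.norm_of_nonneg (by linarith : (0:ℝ) ≤ 1 + L)]; exact hb x)

/-- the key quantitative inequality -/
lemma main_ineq {L : ℝ} (hL : 1 ≤ L) :
    ENNReal.ofReal (1 / 40) *
      ENNReal.ofReal (1 + Real.log (AqConst 2 (dualWeight 2 (W L))).toReal) ^ (1 / 2 : ℝ)
      * mixedConst 2 (W L) ≤ opNormM 2 (W L) := by
  refine le_trans ?_ (op_ge hL)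
  have hK : (4 : ℝ) ≤ (1 + L) ^ 2 := by nlinarith
  have hlog2 : Real.log 2 ≤ Real.log (1 + L) := Real.log_le_log (by norm_num) (by linarith)
  have hl2 : (1 : ℝ) ≤ 2 * Real.log 2 := by
    have := Real.log_two_gt_d9; linarith
  have hlog : Real.log (AqConst 2 (dualWeight 2 (W L))).toReal ≤ Real.log (40 * (1 + L) ^ 2) := by
    have h1 : (AqConst 2 (dualWeight 2 (W L))).toReal ≤ 40 * (1 + L) ^ 2 := by
      apply ENNReal.toReal_le_of_le_ofReal (by positivity)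
      exact AqConst_dual_le hL
    have h2 : 0 < (AqConst 2 (dualWeight 2 (W L))).toReal := by
      apply ENNReal.toReal_pos
      · apply ne_of_gt
        refine lt_of_lt_of_le ?_ (AqConst_dual_ge hL)
        rw [ENNReal.ofReal_pos]; positivity
      · exact ne_top_of_le_ne_top ENNReal.ofReal_ne_top (AqConst_dual_le hL)
    exact Real.log_le_log h2 h1
  have hlog3 : Real.log (40 * (1 + L) ^ 2) ≤ 8 * Real.log (1 + L) := by
    rw [Real.log_mul (by norm_num) (by positivity), Real.log_pow]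
    have : Real.log 40 ≤ 6 * Real.log 2 := by
      calc Real.log 40 ≤ Real.log (2 ^ 6) := Real.log_le_log (by norm_num) (by norm_num)
        _ = 6 * Real.log 2 := by rw [Real.log_pow]; norm_num
    push_cast
    linarith
  have hfin : 1 + Real.log (AqConst 2 (dualWeight 2 (W L))).toReal ≤ 10 * Real.log (1 + L) := by
    linarith
  have hlp : 0 < Real.log (1 + L) := by linarith
  calc ENNReal.ofReal (1 / 40) *
      ENNReal.ofReal (1 + Real.log (AqConst 2 (dualWeight 2 (W L))).toReal) ^ (1 / 2 : ℝ)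
      * mixedConst 2 (W L)
      ≤ ENNReal.ofReal ((1 / 40) ^ 2) ^ (1 / 2 : ℝ) *
        ENNReal.ofReal (10 * Real.log (1 + L)) ^ (1 / 2 : ℝ)
        * ENNReal.ofReal (40 * (1 + L) ^ 2) ^ (1 / 2 : ℝ) := by
        gcongr
        · apply le_of_eq
          rw [ENNReal.ofReal_rpow_of_nonneg (by norm_num) (by norm_num)]
          congr 1
          rw [← Real.sqrt_eq_rpow, Real.sqrt_sq (by norm_num)]
        · exact mixed_le hL
    _ = ENNReal.ofReal ((1 + L) ^ 2 / 4 * Real.log (1 + L)) ^ (1 / 2 : ℝ) := by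
        rw [← ENNReal.mul_rpow_of_nonneg _ _ (by norm_num),
          ← ENNReal.mul_rpow_of_nonneg _ _ (by norm_num), ← ENNReal.ofReal_mul (by norm_num),
          ← ENNReal.ofReal_mul (by positivity)]
        congr 2
        ring

/-- **The one-supremum bound fails** (`n = 1`, `p = 2`).  There are positive weights `w_k ∈ A_2` on
`ℝ` with `[σ_k]_{A_2} → ∞` whose constant `[σ_k]_{(A_2)^{1/2}(A_∞)^{1/2}}` is positive and finite and
`‖M‖_{L²(w_k)} ≥ c Φ([σ_k]_{A_2})^{1/2} [σ_k]_{(A_2)^{1/2}(A_∞)^{1/2}}`; in particular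
`‖M‖_{L²(w_k)} / [σ_k]_{(A_2)^{1/2}(A_∞)^{1/2}} → ∞`. -/
theorem result :
    ∃ w : ℕ → ℝ → ℝ,
      (∀ k x, 0 < w k x) ∧ (∀ k, IsWeight (w k)) ∧ (∀ k, AqConst 2 (w k) < ⊤) ∧
      (∀ k, 0 < mixedConst 2 (w k) ∧ mixedConst 2 (w k) < ⊤) ∧
      Tendsto (fun k => opNormM 2 (w k) / mixedConst 2 (w k)) atTop (𝓝 ⊤) ∧
      Tendsto (fun k => AqConst (conjExp 2) (dualWeight 2 (w k))) atTop (𝓝 ⊤) ∧
      ∃ c : ℝ, 0 < c ∧ ∀ k, ENNReal.ofReal c *
        ENNReal.ofReal (1 + Real.log (AqConst (conjExp 2) (dualWeight 2 (w k))).toReal) ^ (1 / 2 : ℝ)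
        * mixedConst 2 (w k) ≤ opNormM 2 (w k) := by
  have hL : ∀ k : ℕ, (1 : ℝ) ≤ (k : ℝ) + 1 := fun k => by
    have : (0 : ℝ) ≤ k := Nat.cast_nonneg k
    linarith
  refine ⟨fun k => W ((k : ℝ) + 1), fun k x => prof_pos (hL k), fun k => W_weight (hL k),
    fun k => lt_of_le_of_lt (AqConst_W_le (hL k)) ENNReal.ofReal_lt_top,
    fun k => ⟨mixed_pos (hL k), lt_of_le_of_lt (mixed_le (hL k))
      (ENNReal.rpow_lt_top_of_nonneg (by norm_num) ENNReal.ofReal_ne_top)⟩, ?_, ?_,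
    ⟨1 / 40, by norm_num, fun k => by rw [conj_two]; exact main_ineq (hL k)⟩⟩
  · have hlow : ∀ k : ℕ, ENNReal.ofReal (Real.log (1 + ((k : ℝ) + 1)) / 160) ^ (1 / 2 : ℝ) ≤
        opNormM 2 (W ((k : ℝ) + 1)) / mixedConst 2 (W ((k : ℝ) + 1)) := by
      intro k
      have h1 := mixed_le (hL k)
      have h2 := op_ge (hL k)
      have hlp : 0 ≤ Real.log (1 + ((k : ℝ) + 1)) := Real.log_nonneg (by linarith [hL k])
      rw [ENNReal.le_div_iff_mul_le (Or.inl (mixed_pos (hL k)).ne')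
        (Or.inl (lt_of_le_of_lt h1
          (ENNReal.rpow_lt_top_of_nonneg (by norm_num) ENNReal.ofReal_ne_top)).ne)]
      refine le_trans (mul_le_mul' le_rfl h1) (le_trans (le_of_eq ?_) h2)
      rw [← ENNReal.mul_rpow_of_nonneg _ _ (by norm_num), ← ENNReal.ofReal_mul (by positivity)]
      congr 2
      ring
    have hlim : Tendsto (fun k : ℕ =>
        ENNReal.ofReal (Real.log (1 + ((k : ℝ) + 1)) / 160) ^ (1 / 2 : ℝ)) atTop (𝓝 ⊤) := by
      have h1 : Tendsto (fun k : ℕ => Real.log (1 + ((k : ℝ) + 1)) / 160) atTop atTop := by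
        apply Tendsto.atTop_div_const (by norm_num)
        apply Real.tendsto_log_atTop.comp
        apply tendsto_atTop_mono (fun k : ℕ => (by linarith : (k : ℝ) ≤ 1 + ((k : ℝ) + 1)))
        exact tendsto_natCast_atTop_atTop
      have h2 := ENNReal.tendsto_ofReal_atTop.comp h1
      have h3 := (ENNReal.continuous_rpow_const (y := (1 / 2 : ℝ))).tendsto (⊤ : ℝ≥0∞)
      rw [ENNReal.top_rpow_of_pos (by norm_num)] at h3
      exact h3.comp h2
    exact tendsto_nhds_top_mono' hlim hlow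
  · rw [conj_two]
    have hlim : Tendsto (fun k : ℕ => ENNReal.ofReal ((1 + ((k : ℝ) + 1)) ^ 2 / 8)) atTop (𝓝 ⊤) := by
      apply ENNReal.tendsto_ofReal_atTop.comp
      apply Tendsto.atTop_div_const (by norm_num)
      apply tendsto_atTop_mono (f := fun k : ℕ => (k : ℝ)) _ tendsto_natCast_atTop_atTop
      intro k
      have : (0 : ℝ) ≤ k := Nat.cast_nonneg k
      nlinarith
    exact tendsto_nhds_top_mono' hlim fun k => AqConst_dual_ge (hL k)

end Pool.Agent.Results.MP_2c43e6_an.LogFactor
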